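import Pool.Agent.H27.L1.H68.GHK.Targets
import Pool.Agent.H27.L1.H69.GK.PHK2

/-!
# Board `ghk`, row `ORS` (MP_52e316_nt)

Orthogonal spherical forms generate orthogonal spaces; the matrix coefficient of two spherical
forms is continuous, bi-invariant, and an eigenfunction of the test functions.
-/

set_option autoImplicit false

namespace Pool.Agent.H27.L1.H90.GHK

open MeasureTheory Pool.Agent.H27.L1.H34.GM Pool.Agent.H27.L1.H34.GZ Pool.Agent.H27.L1.H34.GU Pool.Agent.H27.L1.H34.GA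
open Pool.Agent.H27.L1.H68.GHK (rt ip OrS T_IPT T_ORS)
open Pool.Agent.H27.L1.H69.GK (RR RR_compact RR_meas RR_det RR_fin mt_cont sz_cont det_cont orth_det)

lemma hec {m N : ℕ} [NeZero N] {T : ℕ → Finset (ZM m)} {F : Mat m → VN m N → ℂ} {lam : ℕ → ℂ}
    {mu : Fin m → ℂ} (h : EigU m N T F lam mu) : HecA m N T F lam :=
  ⟨h.cont, h.supp, h.auto, h.scal, h.hecke, h.bdd⟩

lemma dom_det {m : ℕ} (hm1 : 1 ≤ m) {D : Set (V m)} (hD : DomZ m D) {z : V m} (hz : z ∈ D) :
    (mt z).det ≠ 0 := by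
  intro h
  have h1 := (hD.shell z hz).1
  unfold aN at h1
  have hm0 : (1 : ℝ) / (m : ℝ) ≠ 0 := by
    have : (0 : ℝ) < m := by exact_mod_cast hm1
    positivity
  rw [h, abs_zero, Real.zero_rpow hm0] at h1
  linarith

lemma ip_congr {m N : ℕ} [NeZero N] (hm1 : 1 ≤ m) {D : Set (V m)} (hD : DomZ m D)
    {F F' G G' : Mat m → VN m N → ℂ} (hF : ∀ g x, g.det ≠ 0 → F g x = F' g x)
    (hG : ∀ g x, g.det ≠ 0 → G g x = G' g x) : ip D F G = ip D F' G' := by
  unfold ip
  refine Finset.sum_congr rfl fun x _ => setIntegral_congr_fun hD.meas fun z hz => ?_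
  have h := dom_det hm1 hD hz
  show F (mt z) x * (starRingEnd ℂ) (G (mt z) x) = F' (mt z) x * (starRingEnd ℂ) (G' (mt z) x)
  rw [hF _ _ h, hG _ _ h]

lemma inv_contOn {m : ℕ} : ContinuousOn (fun z : Mat m => z⁻¹) {z | z.det ≠ 0} := by
  have e : (fun z : Mat m => z⁻¹) = fun z => (z.det)⁻¹ • z.adjugate := by
    funext z
    rw [Matrix.inv_def, Ring.inverse_eq_inv']
  rw [e]
  exact (det_cont.continuousOn.inv₀ fun z hz => hz).smul
    (continuous_id.matrix_adjugate).continuousOn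

lemma inv_det {m : ℕ} {z : Mat m} (hz : z.det ≠ 0) : (z⁻¹).det ≠ 0 := by
  rw [Matrix.det_nonsing_inv, Ring.inverse_eq_inv']
  exact inv_ne_zero hz

/-- the matrix coefficient -/
noncomputable def mc {m N : ℕ} [NeZero N] (D : Set (V m)) (F G : Mat m → VN m N → ℂ)
    (z : Mat m) : ℂ := ip D (rt z⁻¹ F) G

lemma rt_one {m N : ℕ} (G : Mat m → VN m N → ℂ) : rt (1 : Mat m) G = G := by
  funext g x
  show G (g * 1) x = G g x
  rw [Matrix.mul_one]

theorem mc_cont (hV : T_VLM) {m N : ℕ} [NeZero N] {T : ℕ → Finset (ZM m)} {D : Set (V m)}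
    (hS : SysZ m N T D) {F G : Mat m → VN m N → ℂ} {lam lam' : ℕ → ℂ}
    (hF : HecA m N T F lam) (hG : HecA m N T G lam') :
    ContinuousOn (mc D F G) {z | z.det ≠ 0} := by
  have hm1 := hS.one_le
  have hD := hS.dom
  obtain ⟨B, hB⟩ := hF.bdd
  obtain ⟨B', hB'⟩ := hG.bdd
  have i2 : IsFiniteMeasure ((hm m).restrict D) := by
    obtain ⟨C, _, _, h⟩ := hV m hm1
    exact ⟨by
      rw [Measure.restrict_apply_univ]
      exact (h D hD).1.trans_lt ENNReal.ofReal_lt_top⟩
  have hdet : MeasurableSet ({z : V m | (mt z).det ≠ 0}) :=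
    (isOpen_ne.preimage (det_cont.comp mt_cont)).measurableSet
  have hae : ((hm m).restrict D).restrict {z : V m | (mt z).det ≠ 0} = (hm m).restrict D := by
    refine Measure.restrict_eq_self_of_ae_mem ?_
    filter_upwards [ae_restrict_mem hD.meas] with z hz
    exact dom_det hm1 hD hz
  have hfc : FirstCountableTopology (Mat m) := inferInstanceAs (FirstCountableTopology (V m))
  unfold mc ip
  refine continuousOn_finsetSum _ fun x _ => ?_
  intro z0 hz0
  refine continuousWithinAt_of_dominated (bound := fun _ => |B| * |B'|) ?_ ?_ ?_ ?_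
  · filter_upwards [self_mem_nhdsWithin] with z hz
    have h3 : ContinuousOn (fun g : V m => mt g * z⁻¹) {g : V m | (mt g).det ≠ 0} :=
      ((mt_cont.mul continuous_const)).continuousOn
    have h4 : ContinuousOn (fun g : V m => F (mt g * z⁻¹) x) {g : V m | (mt g).det ≠ 0} :=
      (hF.cont x).comp (f := fun g : V m => mt g * z⁻¹) h3 fun g hg => by
        show (mt g * z⁻¹).det ≠ 0
        rw [Matrix.det_mul]
        exact mul_ne_zero hg (inv_det hz)
    have h5 : ContinuousOn (fun g : V m => G (mt g) x) {g : V m | (mt g).det ≠ 0} :=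
      (hG.cont x).comp (f := fun g : V m => mt g) mt_cont.continuousOn fun g hg => hg
    have h6 := (h4.mul (Complex.continuous_conj.comp_continuousOn h5)).aestronglyMeasurable
      (μ := (hm m).restrict D) hdet
    rw [hae] at h6
    exact h6
  · filter_upwards [self_mem_nhdsWithin] with z hz
    filter_upwards [ae_restrict_mem hD.meas] with g hg
    have hd := dom_det hm1 hD hg
    have hd3 : (mt g * z⁻¹).det ≠ 0 := by
      rw [Matrix.det_mul]
      exact mul_ne_zero hd (inv_det hz)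
    show ‖F (mt g * z⁻¹) x * (starRingEnd ℂ) (G (mt g) x)‖ ≤ _
    rw [norm_mul, RCLike.norm_conj]
    exact mul_le_mul ((hB _ _ hd3).trans (le_abs_self B)) ((hB' _ _ hd).trans (le_abs_self B'))
      (norm_nonneg _) (abs_nonneg _)
  · exact integrable_const _
  · filter_upwards [ae_restrict_mem hD.meas] with g hg
    have hd := dom_det hm1 hD hg
    have h3 : ContinuousOn (fun z : Mat m => mt g * z⁻¹) {z : Mat m | z.det ≠ 0} :=
      continuousOn_const.mul inv_contOn
    have h4 : ContinuousOn (fun z : Mat m => F (mt g * z⁻¹) x) {z : Mat m | z.det ≠ 0} :=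
      (hF.cont x).comp (f := fun z : Mat m => mt g * z⁻¹) h3 fun z hz => by
        show (mt g * z⁻¹).det ≠ 0
        rw [Matrix.det_mul]
        exact mul_ne_zero hd (inv_det hz)
    exact (h4 z0 hz0).mul continuousWithinAt_const

lemma orth_inv {m : ℕ} {u : Mat m} (hu : u * u.transpose = 1) : u⁻¹ = u.transpose :=
  Matrix.inv_eq_right_inv hu

lemma orth_inv' {m : ℕ} {u : Mat m} (hu : u * u.transpose = 1) :
    u⁻¹ * (u⁻¹).transpose = 1 := by
  rw [orth_inv hu, Matrix.transpose_transpose]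
  exact mul_eq_one_comm.mp hu

lemma orth_ne {m : ℕ} {u : Mat m} (hu : u * u.transpose = 1) : u.det ≠ 0 := by
  have h := orth_det hu
  intro h0
  rw [h0, abs_zero] at h
  exact zero_ne_one h

theorem mc_left {m N : ℕ} [NeZero N] {T : ℕ → Finset (ZM m)} {D : Set (V m)}
    (hS : SysZ m N T D) {F G : Mat m → VN m N → ℂ} {lam : ℕ → ℂ} {mu : Fin m → ℂ}
    (hF : EigU m N T F lam mu) (u : Mat m) (hu : u * u.transpose = 1) (z : Mat m)
    (hz : z.det ≠ 0) : mc D F G (u * z) = mc D F G z := by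
  unfold mc
  refine ip_congr hS.one_le hS.dom (fun g x hg => ?_) fun g x _ => rfl
  show F (g * (u * z)⁻¹) x = F (g * z⁻¹) x
  rw [Matrix.mul_inv_rev, ← Matrix.mul_assoc]
  refine hF.orth _ (orth_inv' hu) _ _ ?_
  rw [Matrix.det_mul]
  exact mul_ne_zero hg (inv_det hz)

theorem mc_right {m N : ℕ} [NeZero N] {T : ℕ → Finset (ZM m)} {D : Set (V m)}
    (hS : SysZ m N T D) {F G : Mat m → VN m N → ℂ} {lam' : ℕ → ℂ} {mu' : Fin m → ℂ}
    (hI : ∀ w w' : Mat m, w.det ≠ 0 → w'.det ≠ 0 →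
      ip D (rt w F) (rt w' G) = ip D (rt (w'⁻¹ * w) F) G)
    (hG : EigU m N T G lam' mu') (u : Mat m)
    (hu : u * u.transpose = 1) (z : Mat m)
    (hz : z.det ≠ 0) : mc D F G (z * u) = mc D F G z := by
  unfold mc
  have hu' := orth_ne hu
  have h3 := hI (u⁻¹ * z⁻¹) u⁻¹ (by
    rw [Matrix.det_mul]
    exact mul_ne_zero (inv_det hu') (inv_det hz)) (inv_det hu')
  have h4 : (u⁻¹)⁻¹ * (u⁻¹ * z⁻¹) = z⁻¹ := by
    rw [← Matrix.mul_assoc, Matrix.nonsing_inv_mul _ (Ne.isUnit (inv_det hu')), Matrix.one_mul]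
  rw [h4] at h3
  rw [← h3, Matrix.mul_inv_rev]
  refine ip_congr hS.one_le hS.dom (fun g x _ => rfl) fun g x hg => ?_
  exact (hG.orth _ (orth_inv' hu) g x hg).symm

/-- the matrix coefficient is an eigenfunction -/
theorem mc_eig (hH : T_HAR) (hV : T_VLM) {m N : ℕ} [NeZero N] {T : ℕ → Finset (ZM m)}
    {D : Set (V m)} (hS : SysZ m N T D) {F G : Mat m → VN m N → ℂ} {lam lam' : ℕ → ℂ}
    {mu mu' : Fin m → ℂ} (hF : EigU m N T F lam mu) (hG : EigU m N T G lam' mu')
    (k : Mat m → ℂ) (hk : Tst m k) :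
    ∫ z, k (mt z) * mc D F G (mt z) ∂(hm m) =
      ip D F G * ∫ z, k (mt z) * pw mu (mt z) ∂(hm m) := by
  have hm1 := hS.one_le
  have hD := hS.dom
  obtain ⟨c, hc, hs⟩ := hk.supp
  obtain ⟨B, hB⟩ := hF.bdd
  obtain ⟨B', hB'⟩ := hG.bdd
  have i1 : IsFiniteMeasure ((hm m).restrict (RR m c)) :=
    ⟨by rw [Measure.restrict_apply_univ]; exact RR_fin hH hm1 hc⟩
  have i2 : IsFiniteMeasure ((hm m).restrict D) := by
    obtain ⟨C, _, _, h⟩ := hV m hm1
    exact ⟨by
      rw [Measure.restrict_apply_univ]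
      exact (h D hD).1.trans_lt ENNReal.ofReal_lt_top⟩
  set A : VN m N → V m → V m → ℂ := fun x z g =>
    k (mt z) * (F (mt g * (mt z)⁻¹) x * (starRingEnd ℂ) (G (mt g) x)) with hA
  have hkz : ∀ z : V m, z ∉ RR m c → k (mt z) = 0 := by
    intro z hz
    by_contra hcon
    exact hz (hs _ hcon)
  obtain ⟨K, hK⟩ := (RR_compact m c).exists_bound_of_continuousOn
    (hk.cont.comp mt_cont).continuousOn
  have hdet : MeasurableSet ({z : V m | (mt z).det ≠ 0}) :=
    (isOpen_ne.preimage (det_cont.comp mt_cont)).measurableSet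
  have hint : ∀ x, Integrable (Function.uncurry (A x))
      (((hm m).restrict (RR m c)).prod ((hm m).restrict D)) := by
    intro x
    have hU : ∀ᵐ p ∂(((hm m).restrict (RR m c)).prod ((hm m).restrict D)),
        p ∈ (RR m c) ×ˢ D := by
      have h1 : ∀ᵐ z ∂((hm m).restrict (RR m c)), z ∈ RR m c := ae_restrict_mem (RR_meas m c)
      have h2 : ∀ᵐ z ∂((hm m).restrict D), z ∈ D := ae_restrict_mem hD.meas
      have h3 := Measure.quasiMeasurePreserving_fst (μ := (hm m).restrict (RR m c))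
        (ν := (hm m).restrict D) |>.ae h1
      have h4 := Measure.quasiMeasurePreserving_snd (μ := (hm m).restrict (RR m c))
        (ν := (hm m).restrict D) |>.ae h2
      filter_upwards [h3, h4] with p h5 h6
      exact ⟨h5, h6⟩
    have hcon : ContinuousOn (Function.uncurry (A x))
        ({z : V m | (mt z).det ≠ 0} ×ˢ {g : V m | (mt g).det ≠ 0}) := by
      have h1 : ContinuousOn (fun p : V m × V m => k (mt p.1))
          ({z : V m | (mt z).det ≠ 0} ×ˢ {g : V m | (mt g).det ≠ 0}) :=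
        (hk.cont.comp (mt_cont.comp continuous_fst)).continuousOn
      have h2 : ContinuousOn (fun p : V m × V m => (mt p.1)⁻¹)
          ({z : V m | (mt z).det ≠ 0} ×ˢ {g : V m | (mt g).det ≠ 0}) :=
        inv_contOn.comp (f := fun p : V m × V m => mt p.1)
          (mt_cont.comp continuous_fst).continuousOn fun p hp => hp.1
      have h3 : ContinuousOn (fun p : V m × V m => mt p.2 * (mt p.1)⁻¹)
          ({z : V m | (mt z).det ≠ 0} ×ˢ {g : V m | (mt g).det ≠ 0}) :=
        ((mt_cont.comp continuous_snd).continuousOn).mul h2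
      have h4 : ContinuousOn (fun p : V m × V m => F (mt p.2 * (mt p.1)⁻¹) x)
          ({z : V m | (mt z).det ≠ 0} ×ˢ {g : V m | (mt g).det ≠ 0}) :=
        (hF.cont x).comp (f := fun p : V m × V m => mt p.2 * (mt p.1)⁻¹) h3 fun p hp => by
          show (mt p.2 * (mt p.1)⁻¹).det ≠ 0
          rw [Matrix.det_mul]
          exact mul_ne_zero hp.2 (inv_det hp.1)
      have h5 : ContinuousOn (fun p : V m × V m => G (mt p.2) x)
          ({z : V m | (mt z).det ≠ 0} ×ˢ {g : V m | (mt g).det ≠ 0}) :=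
        (hG.cont x).comp (f := fun p : V m × V m => mt p.2)
          (mt_cont.comp continuous_snd).continuousOn fun p hp => hp.2
      exact h1.mul (h4.mul (Complex.continuous_conj.comp_continuousOn h5))
    have hmeas : AEStronglyMeasurable (Function.uncurry (A x))
        (((hm m).restrict (RR m c)).prod ((hm m).restrict D)) := by
      have h6 := hcon.aestronglyMeasurable
        (μ := ((hm m).restrict (RR m c)).prod ((hm m).restrict D)) (hdet.prod hdet)
      have h7 : (((hm m).restrict (RR m c)).prod ((hm m).restrict D)).restrict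
          ({z : V m | (mt z).det ≠ 0} ×ˢ {g : V m | (mt g).det ≠ 0}) =
          ((hm m).restrict (RR m c)).prod ((hm m).restrict D) := by
        refine Measure.restrict_eq_self_of_ae_mem ?_
        filter_upwards [hU] with p hp
        exact ⟨RR_det hc hp.1, dom_det hm1 hD hp.2⟩
      rwa [h7] at h6
    refine Integrable.of_bound hmeas (|K| * (|B| * |B'|)) ?_
    filter_upwards [hU] with p hp
    show ‖k (mt p.1) * (F (mt p.2 * (mt p.1)⁻¹) x * (starRingEnd ℂ) (G (mt p.2) x))‖ ≤ _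
    have hd1 := RR_det hc hp.1
    have hd2 := dom_det hm1 hD hp.2
    have hd3 : (mt p.2 * (mt p.1)⁻¹).det ≠ 0 := by
      rw [Matrix.det_mul]
      exact mul_ne_zero hd2 (inv_det hd1)
    rw [norm_mul, norm_mul, RCLike.norm_conj]
    refine mul_le_mul ((hK p.1 hp.1).trans (le_abs_self K)) ?_ (by positivity) (abs_nonneg _)
    exact mul_le_mul ((hB _ _ hd3).trans (le_abs_self B)) ((hB' _ _ hd2).trans (le_abs_self B'))
      (norm_nonneg _) (abs_nonneg _)
  have e1 : ∫ z, k (mt z) * mc D F G (mt z) ∂(hm m) =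
      ∫ z in RR m c, ∑ x, ∫ g in D, A x z g ∂(hm m) ∂(hm m) := by
    rw [← setIntegral_eq_integral_of_forall_compl_eq_zero (s := RR m c) fun z hz => by
      rw [hkz z hz, zero_mul]]
    refine setIntegral_congr_fun (RR_meas m c) fun z _ => ?_
    show k (mt z) * mc D F G (mt z) = ∑ x, ∫ g in D, A x z g ∂(hm m)
    unfold mc ip
    rw [Finset.mul_sum]
    refine Finset.sum_congr rfl fun x _ => ?_
    rw [← integral_const_mul]
    rfl
  have e2 : ∀ x, ∫ z in RR m c, ∫ g in D, A x z g ∂(hm m) ∂(hm m) =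
      (∫ g in D, F (mt g) x * (starRingEnd ℂ) (G (mt g) x) ∂(hm m)) *
        ∫ z, k (mt z) * pw mu (mt z) ∂(hm m) := by
    intro x
    rw [integral_integral_swap (hint x), ← integral_mul_const]
    refine setIntegral_congr_fun hD.meas fun g hg => ?_
    have hd := dom_det hm1 hD hg
    show ∫ z in RR m c, A x z g ∂(hm m) = F (mt g) x * (starRingEnd ℂ) (G (mt g) x) *
      ∫ z, k (mt z) * pw mu (mt z) ∂(hm m)
    rw [setIntegral_eq_integral_of_forall_compl_eq_zero fun z hz => by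
      show k (mt z) * _ = 0
      rw [hkz z hz, zero_mul]]
    have h8 := hF.arch k hk (mt g) x hd
    calc ∫ z, A x z g ∂(hm m) =
          ∫ z, (k (mt z) * F (mt g * (mt z)⁻¹) x) * (starRingEnd ℂ) (G (mt g) x) ∂(hm m) := by
          refine integral_congr_ae (Filter.Eventually.of_forall fun z => ?_)
          show k (mt z) * (F (mt g * (mt z)⁻¹) x * (starRingEnd ℂ) (G (mt g) x)) = _
          ring
      _ = (F (mt g) x * ∫ z, k (mt z) * pw mu (mt z) ∂(hm m)) *
          (starRingEnd ℂ) (G (mt g) x) := by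
          rw [integral_mul_const, h8]
      _ = _ := by ring
  rw [e1, integral_finsetSum]
  · unfold ip
    rw [Finset.sum_mul]
    exact Finset.sum_congr rfl fun x _ => e2 x
  · intro x _
    exact (hint x).integral_prod_left

/-- the vanishing -/
theorem orth_all (hH : T_HAR) (hA : T_HAC) (hP : T_PWC) (hV : T_VLM) {m N : ℕ} [NeZero N]
    {T : ℕ → Finset (ZM m)} {D : Set (V m)} (hS : SysZ m N T D) {F G : Mat m → VN m N → ℂ}
    {lam lam' : ℕ → ℂ} {mu mu' : Fin m → ℂ} (hF : EigU m N T F lam mu)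
    (hG : EigU m N T G lam' mu')
    (hI : ∀ w w' : Mat m, w.det ≠ 0 → w'.det ≠ 0 →
      ip D (rt w F) (rt w' G) = ip D (rt (w'⁻¹ * w) F) G) (h0 : ip D F G = 0) (u : Mat m)
    (hu : u.det ≠ 0) : ip D (rt u F) G = 0 := by
  have hm1 := hS.one_le
  obtain ⟨κ, hκ⟩ := Pool.Agent.H27.L1.H69.GK.exists_kap hH hm1
  have h5 := Pool.Agent.H27.L1.H69.GK.pf_PHK hH hA hP hm1 mu hκ (mc D F G) 0
    (mc_cont hV hS (hec hF) (hec hG)) (fun w hw z hz => mc_left hS hF w hw z hz)
    (fun w hw z hz => mc_right hS hI hG w hw z hz)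
    (fun k hk => by
      rw [mc_eig hH hV hS hF hG k hk, h0])
    u⁻¹ (inv_det hu)
  rw [zero_mul] at h5
  have h6 : (u⁻¹)⁻¹ = u := Matrix.nonsing_inv_nonsing_inv u (Ne.isUnit hu)
  unfold mc at h5
  rwa [h6] at h5

theorem inv_of_IPT (h1 : T_IPT) {m N : ℕ} [NeZero N] {T : ℕ → Finset (ZM m)} {D : Set (V m)}
    (hS : SysZ m N T D) {F G : Mat m → VN m N → ℂ} {lam lam' : ℕ → ℂ}
    (hF : HecA m N T F lam) (hG : HecA m N T G lam') (w w' : Mat m) (hw : w.det ≠ 0)
    (hw' : w'.det ≠ 0) : ip D (rt w F) (rt w' G) = ip D (rt (w'⁻¹ * w) F) G := by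
  have hd : (w'⁻¹ * w).det ≠ 0 := by
    rw [Matrix.det_mul]
    exact mul_ne_zero (inv_det hw') hw
  have h2 : HecA m N T (rt (w'⁻¹ * w) F) lam := ((h1 m N T D hS F G lam lam' hF hG).1 _ hd).1
  have h3 := ((h1 m N T D hS (rt (w'⁻¹ * w) F) G lam lam' h2 hG).1 w' hw').2.2
  rw [← h3]
  refine ip_congr hS.one_le hS.dom (fun g x _ => ?_) fun g x hg => rfl
  show F (g * w) x = F (g * w' * (w'⁻¹ * w)) x
  rw [Matrix.mul_assoc, ← Matrix.mul_assoc w', Matrix.mul_nonsing_inv _ (Ne.isUnit hw'),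
    Matrix.one_mul]

/-- row ORS -/
theorem pf_ORS (h1 : T_IPT) (hH : T_HAR) (hA : T_HAC) (hP : T_PWC) (hV : T_VLM) : T_ORS := by
  intro m N _ T D hS ι _ _ F lam mu hF hO
  have hm1 := hS.one_le
  refine ⟨fun i => ?_, fun i j hij u hu => ?_⟩
  · have h2 := (h1 m N T D hS (F i) (F i) (lam i) (lam i) (hec (hF i).toEigU)
      (hec (hF i).toEigU)).2.2.1
    have h3 := hO.2 i i
    rw [if_pos rfl] at h3
    have h4 : ip D (F i) (F i) = 1 := h3
    rw [h4] at h2
    exact_mod_cast h2.symm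
  · have h3 := hO.2 i j
    rw [if_neg hij] at h3
    exact orth_all hH hA hP hV hS (hF i).toEigU (hF j).toEigU
      (fun w w' hw hw' => inv_of_IPT h1 hS (hec (hF i).toEigU) (hec (hF j).toEigU) w w' hw hw')
      h3 u hu

end Pool.Agent.H27.L1.H90.GHK
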