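import Pool.Agent.H27.L1.H90.GHK.ORS
import Pool.Agent.H27.L1.H31.GK.TG

/-!
# Board `ghk` (MP_52e316_nt): orthonormal spherical forms are separated

The relation `Sep` of `Pool.Agent.H27.L1.H31.GK` for orthonormal spherical forms.
-/

set_option autoImplicit false

namespace Pool.Agent.H27.L1.H90.GHK

open MeasureTheory Pool.Agent.H27.L1.H34.GM Pool.Agent.H27.L1.H34.GZ Pool.Agent.H27.L1.H34.GU Pool.Agent.H27.L1.H34.GA
open Pool.Agent.H27.L1.H31.GK (trn ipz Sep T_TRI)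
open Pool.Agent.H27.L1.H68.GHK (rt ip)

/-- orthonormal spherical forms are separated -/
theorem sep (hT : T_TRI) (hH : T_HAR) (hA : T_HAC) (hP : T_PWC) (hV : T_VLM) {m N : ℕ} [NeZero N]
    {T : ℕ → Finset (ZM m)} {D : Set (V m)} (hS : SysZ m N T D) {ι : Type} [DecidableEq ι]
    {F : ι → Mat m → VN m N → ℂ} {lam : ι → ℕ → ℂ} {mu : ι → Fin m → ℂ}
    (hF : ∀ i, EigU m N T (F i) (lam i) (mu i)) (hO : Orthn D F) : Sep D F := by
  intro i j hij w hw
  have h3 := hO.2 i j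
  rw [if_neg hij] at h3
  exact orth_all hH hA hP hV hS (hF i) (hF j)
    (fun w w' hw hw' => hT m N T D hS (F i) (F j) (lam i) (lam j) (hec (hF i)) (hec (hF j))
      w w' hw hw') h3 w hw

/-- the norm of a member of an orthonormal family -/
theorem sep_norm {m N : ℕ} [NeZero N] {D : Set (V m)} {ι : Type} [DecidableEq ι]
    {F : ι → Mat m → VN m N → ℂ} (hO : Orthn D F) (i : ι) : nU D (F i) = 1 := by
  have h3 := hO.2 i i
  rw [if_pos rfl] at h3
  have h4 : ∀ x, ∫ z in D, F i (mt z) x * (starRingEnd ℂ) (F i (mt z) x) ∂(hm m) =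
      ((∫ z in D, ‖F i (mt z) x‖ ^ 2 ∂(hm m) : ℝ) : ℂ) := by
    intro x
    rw [← integral_complex_ofReal]
    refine integral_congr_ae (Filter.Eventually.of_forall fun z => ?_)
    show F i (mt z) x * (starRingEnd ℂ) (F i (mt z) x) = ((‖F i (mt z) x‖ ^ 2 : ℝ) : ℂ)
    rw [Complex.mul_conj, Complex.normSq_eq_norm_sq]
  have h5 : ((nU D (F i) : ℝ) : ℂ) = 1 := by
    rw [← h3]
    unfold nU
    rw [Complex.ofReal_sum]
    exact Finset.sum_congr rfl fun x _ => (h4 x).symm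
  exact_mod_cast h5

/-- the matrix coefficient of a spherical form -/
theorem coeff (hT : T_TRI) (hH : T_HAR) (hA : T_HAC) (hP : T_PWC) (hV : T_VLM) {m N : ℕ}
    [NeZero N] {T : ℕ → Finset (ZM m)} {D : Set (V m)} (hS : SysZ m N T D)
    {F : Mat m → VN m N → ℂ} {lam : ℕ → ℂ} {mu : Fin m → ℂ} (hF : EigU m N T F lam mu)
    {κ : Mat m → ℝ} (hκ : Pool.Agent.H27.L1.H69.GK.Kap m κ) (z : Mat m) (hz : z.det ≠ 0) :
    ipz D F F z⁻¹ = ipz D F F 1 * Pool.Agent.H27.L1.H69.GK.phi0 κ mu z := by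
  have hm1 := hS.one_le
  have h5 := Pool.Agent.H27.L1.H69.GK.pf_PHK hH hA hP hm1 mu hκ (mc D F F) (ip D F F)
    (mc_cont hV hS (hec hF) (hec hF)) (fun w hw z hz => mc_left hS hF w hw z hz)
    (fun w hw z hz => mc_right hS
      (fun w w' hw hw' => hT m N T D hS F F lam lam (hec hF) (hec hF) w w' hw hw') hF w hw z hz)
    (fun k hk => mc_eig hH hV hS hF hF k hk) z hz
  have h6 : ipz D F F 1 = ip D F F := by
    show ip D (rt 1 F) F = ip D F F
    rw [rt_one]
  rw [h6]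
  exact h5

end Pool.Agent.H27.L1.H90.GHK
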